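import Mathlib

open Polynomial Finset

namespace Pool.Agent.Results.MP_c82d9a_nt.One

/-- the indeterminate `q`. -/
noncomputable def q : RatFunc ℚ := RatFunc.X

/-- `(a; b)_k`. -/
noncomputable def poch (a b : RatFunc ℚ) (k : ℕ) : RatFunc ℚ := ∏ i ∈ range k, (1 - a * b ^ i)

/-- `[n]`. -/
noncomputable def qint (n : ℕ) : RatFunc ℚ := ∑ i ∈ range n, q ^ i

noncomputable def c (j : ℕ) : RatFunc ℚ := (poch q (q ^ 2) j / poch q q j) ^ 3

def b (j : ℕ) : ℚ := 8 ^ j * (∏ i ∈ range j, (1 / 2 + (i : ℚ))) ^ 3 / (j.factorial : ℚ) ^ 3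

noncomputable def L (m n : ℕ) : RatFunc ℚ := ∑ j ∈ range (m * n), (-1) ^ j * qint (3 * j + 1) * c j

noncomputable def R (m n : ℕ) : RatFunc ℚ :=
  (-1) ^ ((n - 1) / 2) * q ^ ((n - 1) ^ 2 / 4) * qint n *
    RatFunc.C (∑ j ∈ range m, (-1) ^ j * (3 * j + 1) * b j)

/-- `A ≡ B (mod Φ_n(q)^2)`. -/
def Cong (n : ℕ) (A B : RatFunc ℚ) : Prop :=
  cyclotomic n ℚ ^ 2 ∣ (A - B).num ∧ ¬ cyclotomic n ℚ ∣ (A - B).denom

lemma diff : L 2 1 - R 2 1 = algebraMap ℚ[X] (RatFunc ℚ) (3 - X - X ^ 2 - X ^ 3) := by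
  have h : (1 : RatFunc ℚ) - q ≠ 0 := by
    have : (1 : RatFunc ℚ) - q = algebraMap ℚ[X] (RatFunc ℚ) (1 - X) := by simp [q]
    rw [this]
    refine RatFunc.algebraMap_ne_zero fun e => ?_
    have := congrArg (eval 0) e
    simp at this
  have hs : (∑ j ∈ range 2, (-1) ^ j * (3 * j + 1) * b j : ℚ) = -3 := by
    simp [b, sum_range_succ]; norm_num
  have h3 : RatFunc.C (-3 : ℚ) = -3 := by
    rw [map_neg, map_ofNat]
  have h4 : algebraMap ℚ[X] (RatFunc ℚ) 3 = 3 := map_ofNat _ 3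
  unfold L R
  rw [hs, h3]
  simp only [map_sub, map_pow, RatFunc.algebraMap_X, h4]
  simp [sum_range_succ, qint, c, poch, h]
  unfold q
  ring

theorem result : ¬ Cong 1 (L 2 1) (R 2 1) ∧
    ¬ ∀ m n : ℕ, 0 < m → 0 < n → Odd n → Cong n (L m n) (R m n) := by
  have h : ¬ Cong 1 (L 2 1) (R 2 1) := by
    rintro ⟨⟨p, hp⟩, -⟩
    rw [diff, RatFunc.num_algebraMap, cyclotomic_one] at hp
    have := congrArg (fun f => eval 1 (derivative f)) hp
    simp [sq] at this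
    norm_num at this
  exact ⟨h, fun H => h (H 2 1 (by norm_num) (by norm_num) odd_one)⟩

end Pool.Agent.Results.MP_c82d9a_nt.One
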